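import Pool.Agent.H24.RCM.Targets

/-!
MP_4d5ac9_nt, module INO: the inequality in the odd case, with exponents.
-/

set_option autoImplicit false

open NumberField Polynomial nonZeroDivisors Pool.Agent.H26.NL Pool.Agent.H24.RCM

namespace Pool.Agent.H10.RCM

variable {d : ℕ} [hd : Fact d.Prime]

theorem sm_tw (ρ : (ZMod d)ˣ) (v : (ZMod d)ˣ → ℕ) : sm (tw ρ v) = sm v :=
  Equiv.sum_comp (Equiv.mulRight ρ) v

theorem sm_ng (v : (ZMod d)ˣ → ℕ) : sm (ng v) = sm v :=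
  Equiv.sum_comp (Equiv.neg (ZMod d)ˣ) v

theorem sm_add (v w : (ZMod d)ˣ → ℕ) : sm (v + w) = sm v + sm w := by
  unfold sm
  simp only [Pi.add_apply, Finset.sum_add_distrib]

theorem sm_smul (n : ℕ) (v : (ZMod d)ˣ → ℕ) : sm (n • v) = n * sm v := by
  unfold sm
  simp only [Pi.smul_apply, smul_eq_mul, Finset.mul_sum]

theorem tw_neg (v : (ZMod d)ˣ → ℕ) : tw (-1) v = ng v := by
  funext t
  unfold tw ng
  rw [mul_neg, mul_one]

variable {K : Type} [Field K] [NumberField K] [IsCyclotomicExtension {d} ℚ K]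

theorem PV_mem {p k q : ℕ} [Fact p.Prime] (S : Sol d p k q) (h2 : T_IVS) (v : (ZMod d)ˣ → ℕ)
    {n : ℕ} (hn : n ≤ k) : PV d K q v ∈ IV S K n v := by
  have h1 : IV S K k v = IV S K n v * IV S K (k - n) v := by
    unfold IV
    rw [← Finset.prod_mul_distrib]
    refine Finset.prod_congr rfl fun t _ => ?_
    rw [← pow_add, ← add_mul, Nat.add_sub_cancel' hn]
  have h3 : PV d K q v ∈ IV S K k v := by
    rw [(h2 d K p k q S v 1 n).2.2.2]
    exact Ideal.mem_span_singleton_self _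
  rw [h1] at h3
  exact Ideal.mul_le_left h3

theorem pf_INO (h0 : T_PVU) (h1 : T_PVS) (h2 : T_IVS) (h3 : T_PRV) : T_INO := by
  intro d _ K _ _ _ p k q κ m r e _ S D hk hκ hc ρ hρ v w hcv hne
  obtain ⟨g, X, Y, u, hP, hX, ⟨η, hY⟩, hg⟩ := h3 d K p k q κ m r S hk hκ hc v w hcv
  obtain ⟨a, ha⟩ : ∃ a : (ZMod d)ˣ → ℕ, a = v + (κ - 1) • w + κ • ng w := ⟨_, rfl⟩
  obtain ⟨b, hb⟩ : ∃ b : (ZMod d)ˣ → ℕ, b = ng v + (κ - 1) • ng w + κ • w := ⟨_, rfl⟩
  rw [← ha, ← hb] at hP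
  obtain ⟨n, hn⟩ : ∃ n : ℕ, n = m * (κ - 1) := ⟨_, rfl⟩
  rw [← hn] at hg
  have hnk : n ≤ k := by
    rw [hn, hk, mul_comm κ m]
    exact Nat.mul_le_mul_left _ (by omega)
  have hPV : ∀ x : (ZMod d)ˣ → ℕ, PV d K q x ∈ IV S K n x := fun x => PV_mem S h2 x hnk
  have hsg : ∀ (t : (ZMod d)ˣ) (x : (ZMod d)ˣ → ℕ) (y : 𝓞 K), y ∈ IV S K n x →
      sg t y ∈ IV S K n (tw t x) := fun t x y hy => (h2 d K p k q S x t n).2.2.1 y hy
  have hgc : sg (-1 : (ZMod d)ˣ) g ∈ IV S K n (ng w) := by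
    have h := hsg (-1) w g hg
    rwa [tw_neg] at h
  have hcop : ∀ x : (ZMod d)ˣ → ℕ, IsCoprime (Ideal.span {(q : 𝓞 K)}) (IV S K n x) :=
    fun x => (h2 d K p k q S x 1 n).2.1
  have hnorm : ∀ x : (ZMod d)ˣ → ℕ, Ideal.absNorm (IV S K n x) = p ^ (n * sm x) :=
    fun x => (h2 d K p k q S x 1 n).1
  have hXI : X ∈ IV S K n w * IV S K n (ng w) := by
    rw [hX]
    exact Ideal.mul_mem_mul hg (hPV _)
  have hYI : Y ∈ IV S K n w * IV S K n (ng w) := by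
    rw [hY, mul_assoc, mul_comm (sg (-1 : (ZMod d)ˣ) g)]
    exact Ideal.mul_mem_left _ _ (Ideal.mul_mem_mul (hPV _) hgc)
  have hXI' : sg ρ X ∈ IV S K n (tw ρ w) * IV S K n (tw ρ (ng w)) := by
    rw [hX, map_mul]
    exact Ideal.mul_mem_mul (hsg ρ _ _ hg) (hsg ρ _ _ (hPV _))
  have hYI' : sg ρ Y ∈ IV S K n (tw ρ w) * IV S K n (tw ρ (ng w)) := by
    rw [hY, mul_assoc, mul_comm (sg (-1 : (ZMod d)ˣ) g), map_mul, map_mul]
    exact Ideal.mul_mem_left _ _ (Ideal.mul_mem_mul (hsg ρ _ _ (hPV _)) (hsg ρ _ _ hgc))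
  have hcopI := (hcop w).mul_right (hcop (ng w))
  have hcopI' := (hcop (tw ρ w)).mul_right (hcop (tw ρ (ng w)))
  have hu0 : u ≠ 0 := hP.hu.ne_zero
  have hsu : IsUnit (sg ρ u) := hP.hu.map (sg (K := K) ρ)
  have hD0 : sg ρ X * Y - X * sg ρ Y ≠ 0 := by
    intro hz
    apply hne
    have e1 : (sg ρ X * Y) ^ κ = (X * sg ρ Y) ^ κ := by rw [sub_eq_zero.1 hz]
    rw [mul_pow, mul_pow, ← map_pow, ← map_pow, hP.hX, hP.hY, map_mul, map_mul] at e1
    rw [(h1 d K p k q S a w ρ).1, (h1 d K p k q S b w ρ).1] at e1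
    have e2 : (sg ρ u * u) * (PV d K q (tw ρ a) * PV d K q b) =
        (sg ρ u * u) * (PV d K q a * PV d K q (tw ρ b)) := by
      linear_combination e1
    have e3 := mul_left_cancel₀ (mul_ne_zero hsu.ne_zero hu0) e2
    rw [(h1 d K p k q S (tw ρ a) b ρ).2.2.2.2.1, (h1 d K p k q S a (tw ρ b) ρ).2.2.2.2.1] at e3
    have e4 := h0 d K p k q S _ _ e3
    intro t
    have e5 := congrFun e4 t
    rw [ha, hb] at e5
    simp only [Pi.add_apply, tw, ng, Pi.smul_apply, smul_eq_mul] at e5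
    unfold dl
    obtain ⟨j, rfl⟩ : ∃ j, κ = j + 1 := ⟨κ - 1, by omega⟩
    rw [Nat.add_sub_cancel] at e5
    have e6 := congrArg (Nat.cast (R := ℤ)) e5
    push_cast at e6
    linear_combination -e6
  have hin := hP.ineq hκ D hρ hXI hYI hXI' hYI' hcopI hcopI' hD0
  have hκ0 : κ ≠ 0 := by omega
  have hnX : nm X = p ^ (m * sm a) := by
    apply pow_inj_nat hκ0
    rw [← nm_pow, hP.hX, nm_mul, nm_unit hP.hu, one_mul, (h1 d K p k q S a w ρ).2.2.2.1, ← pow_mul,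
      hk]
    congr 1
    ring
  have hnX' : nm (sg ρ X) = p ^ (m * sm a) := by
    apply pow_inj_nat hκ0
    rw [← nm_pow, ← map_pow, hP.hX, map_mul, nm_mul, nm_unit hsu, one_mul,
      (h1 d K p k q S a w ρ).1, (h1 d K p k q S (tw ρ a) w ρ).2.2.2.1, ← pow_mul, hk, sm_tw]
    congr 1
    ring
  have hsa : sm a = sm v + (κ - 1) * sm w + κ * sm w := by
    rw [ha, sm_add, sm_add, sm_smul, sm_smul, sm_ng]
  have hNI : Ideal.absNorm (IV S K n w * IV S K n (ng w)) = p ^ (2 * (n * sm w)) := by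
    rw [map_mul, hnorm, hnorm, sm_ng, ← pow_add]
    congr 1
    ring
  have hNI' : Ideal.absNorm (IV S K n (tw ρ w) * IV S K n (tw ρ (ng w))) =
      p ^ (2 * (n * sm w)) := by
    rw [map_mul, hnorm, hnorm, sm_tw, sm_tw, sm_ng, ← pow_add]
    congr 1
    ring
  rw [hNI, hNI', hnX, hnX', ← pow_add, ← pow_add] at hin
  have hexp : m * sm a + m * sm a = 2 * m * (sm v + sm w) +
      (2 * (n * sm w) + 2 * (n * sm w)) := by
    obtain ⟨j, rfl⟩ : ∃ j, κ = j + 1 := ⟨κ - 1, by omega⟩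
    rw [hsa, hn, Nat.add_sub_cancel]
    ring
  rw [hexp, pow_add p (2 * m * (sm v + sm w))] at hin
  have hpp : 0 < p ^ (2 * (n * sm w) + 2 * (n * sm w)) := Nat.pow_pos S.hp.pos
  refine Nat.le_of_mul_le_mul_right (le_trans hin (le_of_eq ?_)) hpp
  ring

end Pool.Agent.H10.RCM
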